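import Pool.Agent.Helper73.HM.Defs

/-! # HM: common lemmas -/

namespace Pool.Agent.Helper73.HM

open Ordinal Cardinal ZFSet Order Pool.Agent.Helper73.HODC Pool.Agent.Helper73.HE

/-- stationarity in a variable ordinal -/
theorem DP.statV {Q : Ordinal.{0} → (ℕ → ZFSet.{0}) → Prop}
    (h : DP (fun v => Q (v 0).rank (fun n => v (n + 1)))) (j : ℕ) :
    DP (fun v => Stat {a | Q a v} (v j).rank) := by
  have h1 : DP (fun v => ∀ z : ZFSet.{0}, Club (st z) (v j).rank →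
      ∃ a, Q a v ∧ a ∈ st z ∧ a < (v j).rank) := by
    refine DP.all (Q := fun z v => Club (st z) (v j).rank →
      ∃ a, Q a v ∧ a ∈ st z ∧ a < (v j).rank) ?_
    refine DP.imp (DP.of (dfn_club 0 (j + 1))) ?_
    refine DP.exO (Q := fun a v => Q a (fun n => v (n + 1)) ∧ a ∈ st (v 0) ∧
      a < (v (j + 1)).rank) ?_
    exact (h.rename (fun n => if n = 0 then 0 else n + 1)).and
      ((DP.st 0 1).and (DP.rank_lt 0 (j + 2)))
  exact h1.congr fun v => dn_stat_iff_code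

/-- substitution of an ordinal for the variable `0` -/
theorem dp_subst_at {Q : Ordinal.{0} → (ℕ → ZFSet.{0}) → Prop}
    (h : DP (fun v => Q (v 0).rank (fun n => v (n + 1)))) (x : Ordinal.{0}) :
    DP (fun v => Q x v) := by
  refine (DP.exO (Q := fun a v => a = x ∧ Q a v) ((DP.rank_eq_ord 0 x).and h)).congr fun v => ?_
  constructor
  · intro h; exact ⟨x, rfl, h⟩
  · rintro ⟨a, rfl, h⟩; exact h

theorem mem_st_iff {x : ZFSet.{0}} {lam a : Ordinal.{0}} (h : x ⊆ lam.toZFSet) :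
    a ∈ st x ↔ a.toZFSet ∈ x := by
  constructor
  · rintro ⟨z, hz, rfl⟩
    obtain ⟨b, hb, rfl⟩ := mem_toZFSet_iff.1 (h hz)
    rwa [rank_toZFSet]
  · intro h1
    exact ⟨_, h1, rank_toZFSet a⟩

theorem lt_of_mem_st {x : ZFSet.{0}} {lam a : Ordinal.{0}} (h : x ⊆ lam.toZFSet)
    (ha : a ∈ st x) : a < lam := by
  obtain ⟨z, hz, rfl⟩ := ha
  obtain ⟨b, hb, rfl⟩ := mem_toZFSet_iff.1 (h hz)
  rwa [rank_toZFSet]

theorem ext_st {x y : ZFSet.{0}} {lam : Ordinal.{0}} (hx : x ⊆ lam.toZFSet)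
    (hy : y ⊆ lam.toZFSet) (h : ∀ a, a ∈ st x ↔ a ∈ st y) : x = y := by
  ext z
  constructor
  · intro hz
    obtain ⟨b, hb, rfl⟩ := mem_toZFSet_iff.1 (hx hz)
    exact (mem_st_iff hy).1 ((h b).1 ((mem_st_iff hx).2 hz))
  · intro hz
    obtain ⟨b, hb, rfl⟩ := mem_toZFSet_iff.1 (hy hz)
    exact (mem_st_iff hx).1 ((h b).2 ((mem_st_iff hy).2 hz))

theorem HOD.od {x : ZFSet.{0}} (h : HOD x) : OD x := by
  obtain ⟨_, h, -⟩ := h
  exact h

theorem hod_of_sub {x : ZFSet.{0}} {lam : Ordinal.{0}} (h : x ⊆ lam.toZFSet) (h' : OD x) :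
    HOD x := by
  refine HOD.intro _ h' fun y hy => ?_
  obtain ⟨b, hb, rfl⟩ := mem_toZFSet_iff.1 (h hy)
  exact HOD_toZFSet b

theorem mem_hodPow {x : ZFSet.{0}} {lam : Ordinal.{0}} :
    x ∈ hodPow lam ↔ x ⊆ lam.toZFSet ∧ OD x := by
  rw [hodPow, ZFSet.mem_sep, ZFSet.mem_powerset]
  exact ⟨fun h => ⟨h.1, HOD.od h.2⟩, fun h => ⟨h.1, hod_of_sub h.1 h.2⟩⟩

theorem ordSet_sub (lam : Ordinal.{0}) (A : Set Ordinal.{0}) : ordSet lam A ⊆ lam.toZFSet := by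
  intro z hz
  obtain ⟨a, ha, -, rfl⟩ := (mem_ordSet _ _ _).1 hz
  exact mem_toZFSet_iff.2 ⟨a, ha, rfl⟩

theorem mem_st_ordSet {lam : Ordinal.{0}} {A : Set Ordinal.{0}} {a : Ordinal.{0}} :
    a ∈ st (ordSet lam A) ↔ a < lam ∧ a ∈ A := by
  rw [mem_st_iff (ordSet_sub lam A), mem_ordSet]
  constructor
  · rintro ⟨b, hb, hb', h⟩
    rw [toZFSet_injective h]
    exact ⟨hb, hb'⟩
  · rintro ⟨h1, h2⟩
    exact ⟨a, h1, h2, rfl⟩

theorem od_ordSet {A : Set Ordinal.{0}} (h : DPs A) (lam : Ordinal.{0}) : OD (ordSet lam A) :=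
  HOD.od (HOD_ordSet lam A h)

theorem dps_ordSet {x : ZFSet.{0}} {lam : Ordinal.{0}} (h : x ⊆ lam.toZFSet) (h' : OD x) :
    DPs (st x) :=
  dp_subst_HOD (Q := fun x v => (v 0).rank ∈ st x) (DP.st 1 0) (hod_of_sub h h')

theorem DPr.at {A : Ordinal.{0} → Set Ordinal.{0}} (h : DPr A) (i j : ℕ) :
    DP (fun v => (v i).rank ∈ A (v j).rank) := h.rename (fun n => if n = 0 then i else j)

theorem DPs.at {A : Set Ordinal.{0}} (h : DPs A) (i : ℕ) : DP (fun v => (v i).rank ∈ A) :=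
  h.rename (fun _ => i)

theorem DPr.sec {A : Ordinal.{0} → Set Ordinal.{0}} (h : DPr A) (ζ : Ordinal.{0}) : DPs (A ζ) :=
  dp_subst_at (Q := fun x v => (v 0).rank ∈ A x) (DPr.at h 1 0) ζ

end Pool.Agent.Helper73.HM
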