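import Pool.Agent.Helper73.HM.Own

/-! # HM: the theorem -/

namespace Pool.Agent.Helper73.HM

open Ordinal Cardinal ZFSet Order Pool.Agent.Helper73.HODC Pool.Agent.Helper73.HE

/-- the relation of a sequence in HOD is definable from ordinals -/
theorem odRel_of_hod {ν lam : Ordinal.{0}} {S : Ordinal.{0} → Set Ordinal.{0}}
    (h : HOD (seqSet ν lam S)) : ODRel (fun ξ a => ξ < ν ∧ a < lam ∧ a ∈ S ξ) := by
  rw [odRel_iff_DP]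
  have h1 : DP (fun v => ∃ u : ZFSet.{0}, ∃ w : ZFSet.{0}, (u = u.rank.toZFSet ∧
      u.rank = (v 1).rank) ∧ ZFSet.pair u w ∈ v 0 ∧ (v 2).rank ∈ st w) := by
    refine DP.ex (Q := fun u v => ∃ w : ZFSet.{0}, (u = u.rank.toZFSet ∧
      u.rank = (v 1).rank) ∧ ZFSet.pair u w ∈ v 0 ∧ (v 2).rank ∈ st w) ?_
    refine DP.ex (Q := fun w v => (v 0 = (v 0).rank.toZFSet ∧
      (v 0).rank = (v 2).rank) ∧ ZFSet.pair (v 0) w ∈ v 1 ∧ (v 3).rank ∈ st w) ?_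
    exact ((DP.isOrd 1).and (DP.rank_eq 1 3)).and
      ((DP.of (dfn_pair_mem 1 0 2)).and (DP.st 4 0))
  refine (dp_subst_HOD (Q := fun x v => ∃ u : ZFSet.{0}, ∃ w : ZFSet.{0},
    (u = u.rank.toZFSet ∧ u.rank = (v 0).rank) ∧ ZFSet.pair u w ∈ x ∧ (v 1).rank ∈ st w)
    h1 h).congr fun v => ?_
  constructor
  · rintro ⟨h2, h3, h4⟩
    refine ⟨_, ordSet lam (S (v 0).rank), ⟨by rw [rank_toZFSet], rank_toZFSet _⟩,
      (mem_seqSet _ _ _ _).2 ⟨_, h2, rfl⟩, mem_st_ordSet.2 ⟨h3, h4⟩⟩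
  · rintro ⟨u, w, ⟨hu, hu'⟩, h2, h3⟩
    obtain ⟨ξ, hξ, h4⟩ := (mem_seqSet _ _ _ _).1 h2
    obtain ⟨h5, rfl⟩ := pair_inj.1 h4
    have h6 : (v 0).rank = ξ := by
      rw [← hu', h5, rank_toZFSet]
    rw [h6]
    obtain ⟨h7, h8⟩ := mem_st_ordSet.1 h3
    exact ⟨hξ, h7, h8⟩

theorem local_of (hCV : StCV) (hNA : StNA) (hCH : StCH) (hNM : StNM) (hML : StML)
    (hUD : StUD) (hPW : StPW) : StLocal := by
  intro κ κ₀ c hκ hkk hc h2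
  by_cases hall : ∀ α : Ordinal.{0}, IsSuccLimit α → κ.ord ≤ α → α ≤ κ₀.ord → α.cof < κ → HODSing α
  · exact Or.inl hall
  right
  push Not at hall
  obtain ⟨α, hα, h3, h4, h5, h6⟩ := hall
  have hlt : κ₀ < c := (Cardinal.cantor κ₀).trans h2
  have hkc : κ ≤ c := hkk.trans hlt.le
  have hunc : ℵ₀ < c := lt_of_lt_of_le hκ.unc hkc
  have hno : ∀ X : Set Ordinal.{0}, (∀ a ∈ X, a.cof < κ) → NoSeq κ₀ c X := by
    rintro X hX ⟨S, hS1, hS2, hS3, hS4⟩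
    exact h6 (hCV κ c hκ hc hkc α κ₀.ord hα h3 h5 h4 S hS1 hS2
      (fun ξ hξ a ha => hX a (hS3 ξ hξ a ha)) hS4)
  refine ⟨⟨κ₀, ?_, ?_, hPW κ₀ c h2, ?_⟩, ?_⟩
  · intro h0
    rw [h0] at hkk
    exact absurd (hκ.unc.trans_le hkk) (not_lt.2 zero_le)
  · exact Cardinal.ord_lt_ord.2 hlt
  · rintro ⟨S, hS1, hS2, hS3, hS4, hS5⟩
    refine hno {a | a.cof = ℵ₀} (fun a ha => by rw [ha]; exact hκ.unc)
      ⟨S, odRel_of_hod hS5, hS1, fun ξ hξ a ha => (hS2 ξ hξ a ha).2, hS4⟩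
  · obtain ⟨A, hA, hA'⟩ := hCH κ c hκ hc hkc fun X hX hXs hXc =>
      hNA κ₀ c X hc hunc h2 hX hXs (hno X fun a ha => (hXc a ha).2)
    have hnm : ∀ ξ < κ.ord, HODNormal c.ord (UA c.ord (A ξ)) := fun ξ hξ =>
      hNM c (A ξ) hc hunc (DPr.sec hA ξ) (hA' ξ hξ).1 (hA' ξ hξ).2.1
    refine ⟨fun ξ => UA c.ord (A ξ), ?_, hnm, ?_⟩
    · refine gr' κ.ord _ ?_ fun ξ hξ => (hnm ξ hξ).hod
      have h7 : DP (fun v => v 1 = UA (v 0).rank (A (v 2).rank)) :=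
        (hUD A hA).rename (fun n => if n = 0 then 1 else if n = 1 then 0 else n)
      exact dp_subst_at (Q := fun x v => v 0 = UA x (A (v 1).rank)) h7 c.ord
    · intro ξ ζ hξ hζ
      refine hML c (A ξ) (A ζ) hc hunc (DPr.sec hA ξ) (DPr.sec hA ζ) (hA' ξ (hξ.trans hζ)).1
        (hA' ζ hζ).1 (hA' ξ (hξ.trans hζ)).2.1 (hA' ζ hζ).2.1 fun σ hσ => ?_
      obtain ⟨h8, -, h9⟩ := (hA' ζ hζ).2.2 σ hσ
      exact ⟨h8, h9 ξ hξ⟩

theorem main_of (hL : StLocal) (hY : StHY) : StMain := by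
  intro κ hκ
  by_cases hall : ∀ α : Ordinal.{0}, IsSuccLimit α → κ.ord ≤ α → α.cof < κ → HODSing α
  · exact Or.inl ⟨hY κ hκ.reg hκ.unc hall, hall⟩
  right
  push Not at hall
  obtain ⟨α, hα, h3, h5, h6⟩ := hall
  set κ₀ : Cardinal.{0} := succ (max κ α.card) with hκ₀
  have h4 : α ≤ κ₀.ord := by
    have h7 : α.card < κ₀ := lt_of_le_of_lt (le_max_right _ _) (Order.lt_succ _)
    exact (Cardinal.lt_ord.2 h7).le
  have hkk : κ ≤ κ₀ := (le_max_left _ _).trans (Order.le_succ _)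
  refine ⟨((2 : Cardinal.{0}) ^ κ₀).ord, fun c hc hθ => ?_⟩
  rcases hL κ κ₀ c hκ hkk hc (Cardinal.ord_lt_ord.1 hθ) with h | h
  · exact absurd (h α hα h3 h4 h5) h6
  · exact h

end Pool.Agent.Helper73.HM
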