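import Pool.Agent.Helper73.HM.Base

/-! # HM: the statements of the modules -/

namespace Pool.Agent.Helper73.HM

open Ordinal Cardinal ZFSet Order Pool.Agent.Helper73.HODC Pool.Agent.Helper73.HE

/-! ### strongly compact cardinals: stationary reflection -/

/-- RA -/
def StRA : Prop := ∀ (κ c : Cardinal.{0}), StronglyCompact κ → c.IsRegular → κ ≤ c →
  ∃ (I : Type) (U : Ultrafilter I) (g : I → Ordinal.{0}),
    CardinalInterFilter (U : Filter I) κ ∧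
    (∀ β < c.ord, ∀ᶠ x in (U : Filter I), β < g x) ∧
    (∀ f : I → Ordinal.{0}, (∀ᶠ x in (U : Filter I), f x < g x) →
      ∃ β < c.ord, ∀ᶠ x in (U : Filter I), f x ≤ β) ∧
    (∀ᶠ x in (U : Filter I), g x < c.ord ∧ (g x).cof < κ)

/-- RC -/
def StRC : Prop := ∀ (κ c : Cardinal.{0}) (I : Type) (U : Ultrafilter I) (g : I → Ordinal.{0}),
  ℵ₀ < κ → c.IsRegular → κ ≤ c → CardinalInterFilter (U : Filter I) κ →
    (∀ β < c.ord, ∀ᶠ x in (U : Filter I), β < g x) →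
    (∀ f : I → Ordinal.{0}, (∀ᶠ x in (U : Filter I), f x < g x) →
      ∃ β < c.ord, ∀ᶠ x in (U : Filter I), f x ≤ β) →
    (∀ᶠ x in (U : Filter I), g x < c.ord ∧ (g x).cof < κ) →
    (∀ᶠ x in (U : Filter I), ℵ₀ < (g x).cof) ∧
    (∀ C, Club C c.ord → ∀ᶠ x in (U : Filter I), g x ∈ C)

/-- RS -/
def StRS : Prop := ∀ (κ c : Cardinal.{0}) (I : Type) (U : Ultrafilter I) (g : I → Ordinal.{0}),
  ℵ₀ < κ → c.IsRegular → κ ≤ c → CardinalInterFilter (U : Filter I) κ →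
    (∀ β < c.ord, ∀ᶠ x in (U : Filter I), β < g x) →
    (∀ f : I → Ordinal.{0}, (∀ᶠ x in (U : Filter I), f x < g x) →
      ∃ β < c.ord, ∀ᶠ x in (U : Filter I), f x ≤ β) →
    (∀ᶠ x in (U : Filter I), g x < c.ord ∧ (g x).cof < κ) →
    ∀ A, Stat A c.ord → (∀ a ∈ A, a.cof < κ) → ∀ᶠ x in (U : Filter I), Stat A (g x)

/-- simultaneous reflection of fewer than `κ` stationary sets -/
def StRefl : Prop := ∀ (κ c : Cardinal.{0}), StronglyCompact κ → c.IsRegular → κ ≤ c →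
  ∀ (ι : Type), Cardinal.mk ι < κ → ∀ A : ι → Set Ordinal.{0}, (∀ i, Stat (A i) c.ord) →
    (∀ i, ∀ a ∈ A i, a.cof < κ) →
    Stat {σ | ℵ₀ < σ.cof ∧ σ.cof < κ ∧ ∀ i, Stat (A i) σ} c.ord

/-- DJ -/
def StDJ : Prop := ∀ (σ : Ordinal.{0}) (Y : Set Ordinal.{0}) (S : Ordinal.{0} → Set Ordinal.{0}),
  ℵ₀ < σ.cof → (∀ ξ ∈ Y, Stat (S ξ) σ) →
    (∀ ξ ∈ Y, ∀ η ∈ Y, ∀ a, a ∈ S ξ → a ∈ S η → ξ = η) →
    Cardinal.mk Y ≤ Cardinal.lift.{1} σ.cof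

/-- CV -/
def StCV : Prop := ∀ (κ c : Cardinal.{0}), StronglyCompact κ → c.IsRegular → κ ≤ c →
  ∀ (α ν : Ordinal.{0}), IsSuccLimit α → κ.ord ≤ α → α.cof < κ → α ≤ ν →
  ∀ S : Ordinal.{0} → Set Ordinal.{0}, ODRel (fun ξ a => ξ < ν ∧ a < c.ord ∧ a ∈ S ξ) →
    (∀ ξ < ν, Stat (S ξ) c.ord) → (∀ ξ < ν, ∀ a ∈ S ξ, a.cof < κ) →
    (∀ ξ < ν, ∀ η < ν, ∀ a, a ∈ S ξ → a ∈ S η → ξ = η) → HODSing α

/-- HY -/
def StHY : Prop := ∀ κ : Cardinal.{0}, κ.IsRegular → ℵ₀ < κ →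
  (∀ α : Ordinal.{0}, IsSuccLimit α → κ.ord ≤ α → α.cof < κ → HODSing α) → HODHypothesis

/-! ### satisfaction and ordinal definability inside set theory -/

/-- TC -/
def StTC : Prop := (∀ φ ψ : Fm, code φ = code ψ → φ = ψ) ∧
  (∀ n : Ordinal.{0}, {φ : Fm | (code φ).rank = n}.Finite) ∧
  (∀ n i : ℕ, Dfn (fun v => v i = nz n)) ∧ ∀ i : ℕ, Dfn (fun v => ∃ φ, code φ = v i)

/-- TS -/
def StTS : Prop := ∀ i j k : ℕ, Dfn (fun v => (v k).rank < (v j).rank ∧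
  ∃ φ, code φ = v i ∧ Sat {z | z ∈ V_ (v j).rank} φ (fun _ => v k))

/-- TD -/
def StTD : Prop := ∀ i j k : ℕ, Dfn (fun v => Dz (v i).rank (v j) (v k))

/-- OZ -/
def StOZ : Prop := ∀ x, OD x ↔ ∃ θ c, Dz θ c x

/-- HP -/
def StHP : Prop := (∀ i : ℕ, Dfn (fun v => OD (v i))) ∧
  ∀ i j : ℕ, Dfn (fun v => v i ∈ hodPow (v j).rank)

/-- LE -/
def StLE : Prop := (∀ lam P x y, LeastOD lam P x → LeastOD lam P y → x = y) ∧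
  ∀ lam P, (∃ x, OD x ∧ x ⊆ lam.toZFSet ∧ P x) → ∃ x, LeastOD lam P x

/-- LS -/
def StLS : Prop := ∀ i j : ℕ, Dfn (fun v => Less (v i) (v j))

/-- LD -/
def StLD : Prop := ∀ (lam : Ordinal.{0}) (P : ZFSet.{0} → (ℕ → ZFSet.{0}) → Prop),
  DP (fun v => P (v 0) (fun n => v (n + 1))) →
    ∀ i : ℕ, DP (fun v => LeastOD lam (fun x => P x v) (v i))

/-! ### recursion -/

/-- RE -/
def StRE : Prop := ∀ (lam : Ordinal.{0}) (H : (ℕ → ZFSet.{0}) → Ordinal.{0} → Set Ordinal.{0})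
  (Step : Ordinal.{0} → ZFSet.{0} → Ordinal.{0} → (ℕ → ZFSet.{0}) → Prop),
  DP (fun v => Step (v 0).rank (v 1) (v 2).rank (fun n => v (n + 3))) →
    (∀ v ζ a, a ∈ H v ζ → a < lam) →
    (∀ v ζ W, (∀ η < ζ, sec W η = H v η) → ∀ a, Step ζ W a v ↔ a ∈ H v ζ) →
    DP (fun v => (v 0).rank ∈ H (fun n => v (n + 2)) (v 1).rank)

/-- CF -/
def StCF : Prop := ∀ κ : Cardinal.{0}, ∀ i : ℕ, DP (fun v => (v i).rank.cof < κ)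

/-! ### the splitting tree -/

/-- NE -/
def StNE : Prop := ∀ (lam : Ordinal.{0}) (X : Set Ordinal.{0}),
  (∀ α ζ ζ', ζ ≤ ζ' → Nd lam X α ζ' ⊆ Nd lam X α ζ) ∧
  (∀ α ζ a, a ∈ Nd lam X α (ζ + 1) ↔ a ∈ Nd lam X α ζ ∧
    ∃ B, LeastOD lam (Spl lam (Nd lam X α ζ)) B ∧ (α ∈ st B ↔ a ∈ st B)) ∧
  (∀ α ζ, α ∈ X → α < lam → (∀ η < ζ, ∃ B, LeastOD lam (Spl lam (Nd lam X α η)) B) →
    α ∈ Nd lam X α ζ) ∧
  (∀ α β ζ, α ∈ Nd lam X α ζ → (∀ η < ζ, η ∈ br lam X α ↔ η ∈ br lam X β) →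
    ∀ η ≤ ζ, Nd lam X α η = Nd lam X β η)

/-- ND -/
def StND : Prop := ∀ (lam : Ordinal.{0}) (X : Set Ordinal.{0}), DPs X →
  DP (fun v => (v 0).rank ∈ Nd lam X (v 1).rank (v 2).rank)

/-- no definable sequence of `κ₀` pairwise disjoint stationary subsets of `X` -/
def NoSeq (κ₀ c : Cardinal.{0}) (X : Set Ordinal.{0}) : Prop :=
  ¬ ∃ S : Ordinal.{0} → Set Ordinal.{0},
    ODRel (fun ξ a => ξ < κ₀.ord ∧ a < c.ord ∧ a ∈ S ξ) ∧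
    (∀ ξ < κ₀.ord, Stat (S ξ) c.ord) ∧ (∀ ξ < κ₀.ord, ∀ a ∈ S ξ, a ∈ X) ∧
    (∀ ξ < κ₀.ord, ∀ η < κ₀.ord, ∀ a, a ∈ S ξ → a ∈ S η → ξ = η)

/-- NS -/
def StNS : Prop := ∀ (κ₀ c : Cardinal.{0}) (X : Set Ordinal.{0}), c.IsRegular → ℵ₀ < c →
  DPs X → NoSeq κ₀ c X → ∀ α, α ∉ Nd c.ord X α κ₀.ord

/-- NA: existence of atoms -/
def StNA : Prop := ∀ (κ₀ c : Cardinal.{0}) (X : Set Ordinal.{0}), c.IsRegular → ℵ₀ < c →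
  (2 : Cardinal.{0}) ^ κ₀ < c → DPs X → Stat X c.ord → NoSeq κ₀ c X →
    ∃ A, DPs A ∧ (∀ a ∈ A, a ∈ X ∧ a < c.ord) ∧ Atom c.ord A

/-! ### the ultrafilters -/

/-- UD -/
def StUD : Prop := ∀ A, DPr A → DP (fun v => v 0 = UA (v 1).rank (A (v 2).rank))

/-- GR -/
def StGR : Prop := ∀ (ρ : Ordinal.{0}) (g : Ordinal.{0} → ZFSet.{0}),
  DP (fun v => v 0 = g (v 1).rank) → (∀ a < ρ, HOD (g a)) → HOD (gr ρ g)

/-- NM -/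
def StNM : Prop := ∀ (c : Cardinal.{0}) (A : Set Ordinal.{0}), c.IsRegular → ℵ₀ < c → DPs A →
  (∀ a ∈ A, a < c.ord) → Atom c.ord A → HODNormal c.ord (UA c.ord A)

/-- ML -/
def StML : Prop := ∀ (c : Cardinal.{0}) (A B : Set Ordinal.{0}), c.IsRegular → ℵ₀ < c →
  DPs A → DPs B → (∀ a ∈ A, a < c.ord) → (∀ a ∈ B, a < c.ord) → Atom c.ord A → Atom c.ord B →
    (∀ σ ∈ B, ℵ₀ < σ.cof ∧ Stat A σ) → MLt c.ord (UA c.ord A) (UA c.ord B)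

/-- CH -/
def StCH : Prop := ∀ (κ c : Cardinal.{0}), StronglyCompact κ → c.IsRegular → κ ≤ c →
  (∀ X, DPs X → Stat X c.ord → (∀ a ∈ X, ℵ₀ < a.cof ∧ a.cof < κ) →
    ∃ A, DPs A ∧ (∀ a ∈ A, a ∈ X ∧ a < c.ord) ∧ Atom c.ord A) →
  ∃ A : Ordinal.{0} → Set Ordinal.{0}, DPr A ∧ ∀ ζ < κ.ord, (∀ a ∈ A ζ, a < c.ord) ∧
    Atom c.ord (A ζ) ∧ ∀ σ ∈ A ζ, ℵ₀ < σ.cof ∧ σ.cof < κ ∧ ∀ ξ < ζ, Stat (A ξ) σ

/-- PW -/
def StPW : Prop := ∀ κ₀ c : Cardinal.{0}, (2 : Cardinal.{0}) ^ κ₀ < c → HODPowLt κ₀.ord c.ord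

/-! ### the theorem -/

/-- the local form -/
def StLocal : Prop := ∀ (κ κ₀ c : Cardinal.{0}), StronglyCompact κ → κ ≤ κ₀ → c.IsRegular →
  (2 : Cardinal.{0}) ^ κ₀ < c →
  (∀ α : Ordinal.{0}, IsSuccLimit α → κ.ord ≤ α → α ≤ κ₀.ord → α.cof < κ → HODSing α) ∨
  (OmegaStronglyMeasurable c.ord ∧ MitchellChain κ.ord c.ord)

/-- the dichotomy -/
def StMain : Prop := ∀ κ : Cardinal.{0}, StronglyCompact κ →
  (HODHypothesis ∧ ∀ α : Ordinal.{0}, IsSuccLimit α → κ.ord ≤ α → α.cof < κ → HODSing α) ∨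
  ∃ θ : Ordinal.{0}, ∀ c : Cardinal.{0}, c.IsRegular → θ < c.ord →
    OmegaStronglyMeasurable c.ord ∧ MitchellChain κ.ord c.ord

end Pool.Agent.Helper73.HM
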