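import Pool.Agent.Helper73.HM.NE

/-! # HM module ND: the nodes are definable -/

namespace Pool.Agent.Helper73.HM

open Ordinal Cardinal ZFSet Order Pool.Agent.Helper73.HODC Pool.Agent.Helper73.HE

theorem nd (h1 : StRE) (h2 : StLD) : StND := by
  intro lam X hX
  have h3 : DP (fun v => (v 0).rank ∈ HM.Nd lam X (v 2).rank (v 1).rank) := by
    refine h1 lam (fun v ζ => HM.Nd lam X (v 0).rank ζ) (fun ζ W a v => a ∈ X ∧ a < lam ∧
      ∀ η, η < ζ → ∃ B, LeastOD lam (HM.Spl lam (sec W η)) B ∧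
        ((v 0).rank ∈ st B ↔ a ∈ st B)) ?_ ?_ ?_
    · refine (DPs.at hX 2).and ((DP.rank_lt_ord 2 lam).and ?_)
      refine DP.allO (Q := fun η v => η < (v 0).rank → ∃ B, LeastOD lam (HM.Spl lam
        (sec (v 1) η)) B ∧ ((v 3).rank ∈ st B ↔ (v 2).rank ∈ st B)) ?_
      refine (DP.rank_lt 0 1).imp ?_
      refine DP.ex (Q := fun B v => LeastOD lam (HM.Spl lam
        (sec (v 2) (v 0).rank)) B ∧ ((v 4).rank ∈ st B ↔ (v 3).rank ∈ st B)) ?_
      refine DP.and ?_ ((DP.st 5 0).iff (DP.st 4 0))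
      refine h2 lam (fun B v => HM.Spl lam (sec (v 3) (v 1).rank) B) ?_ 0
      refine DP.and ?_ ?_
      · refine HE.DP.statC (Q := fun a v => a ∈ sec (v 4) (v 2).rank ∧ a ∈ st (v 0)) ?_ lam
        exact (HE.DP.sec 0 5 3).and (DP.st 0 1)
      · refine HE.DP.statC (Q := fun a v => a ∈ sec (v 4) (v 2).rank ∧ a ∉ st (v 0)) ?_ lam
        exact (HE.DP.sec 0 5 3).and (DP.st 0 1).not
    · intro v ζ a ha
      exact (mem_Nd.1 ha).2.1
    · intro v ζ W hW a
      rw [mem_Nd]
      refine and_congr_right fun _ => and_congr_right fun _ => forall_congr' fun η =>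
        forall_congr' fun hη => ?_
      rw [hW η hη]
  exact h3.rename (fun n => if n = 0 then 0 else if n = 1 then 2 else if n = 2 then 1 else n)

end Pool.Agent.Helper73.HM
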