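import Pool.Agent.Helper73.HM.St

/-! # HM module NE: the splitting tree -/

namespace Pool.Agent.Helper73.HM

open Ordinal Cardinal ZFSet Order Pool.Agent.Helper73.HODC

variable {lam : Ordinal.{0}} {X : Set Ordinal.{0}}

theorem mem_Nd {α ζ a : Ordinal.{0}} : a ∈ Nd lam X α ζ ↔ a ∈ X ∧ a < lam ∧
    ∀ η < ζ, ∃ B, LeastOD lam (Spl lam (Nd lam X α η)) B ∧ (α ∈ st B ↔ a ∈ st B) := by
  rw [Nd]
  constructor
  · rintro ⟨h1, h2, h3⟩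
    exact ⟨h1, h2, fun η hη => h3 ⟨η, hη⟩⟩
  · rintro ⟨h1, h2, h3⟩
    exact ⟨h1, h2, fun η => h3 η.1 η.2⟩

theorem Nd_anti {α ζ ζ' : Ordinal.{0}} (h : ζ ≤ ζ') : Nd lam X α ζ' ⊆ Nd lam X α ζ := by
  intro a ha
  rw [mem_Nd] at ha ⊢
  exact ⟨ha.1, ha.2.1, fun η hη => ha.2.2 η (hη.trans_le h)⟩

theorem mem_Nd_succ {α ζ a : Ordinal.{0}} : a ∈ Nd lam X α (ζ + 1) ↔
    a ∈ Nd lam X α ζ ∧ ∃ B, LeastOD lam (Spl lam (Nd lam X α ζ)) B ∧ (α ∈ st B ↔ a ∈ st B) := by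
  constructor
  · intro h
    exact ⟨Nd_anti (lt_add_one ζ).le h, (mem_Nd.1 h).2.2 ζ (lt_add_one ζ)⟩
  · rintro ⟨h1, h2⟩
    rw [mem_Nd] at h1 ⊢
    refine ⟨h1.1, h1.2.1, fun η hη => ?_⟩
    rcases (lt_add_one_iff.1 hη).lt_or_eq with h | h
    · exact h1.2.2 η h
    · rw [h]; exact h2

theorem self_mem_Nd {α ζ : Ordinal.{0}} (h1 : α ∈ X) (h2 : α < lam)
    (h : ∀ η < ζ, ∃ B, LeastOD lam (Spl lam (Nd lam X α η)) B) : α ∈ Nd lam X α ζ := by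
  rw [mem_Nd]
  refine ⟨h1, h2, fun η hη => ?_⟩
  obtain ⟨q, hq⟩ := h η hη
  exact ⟨q, hq, Iff.rfl⟩

theorem mem_br_iff (hL : StLE) {α η : Ordinal.{0}} {B : ZFSet.{0}}
    (hB : LeastOD lam (Spl lam (Nd lam X α η)) B) : η ∈ br lam X α ↔ α ∈ st B := by
  constructor
  · rintro ⟨B', hB', h⟩
    rwa [hL.1 _ _ _ _ hB' hB] at h
  · intro h
    exact ⟨B, hB, h⟩

theorem Nd_eq_of_br (hL : StLE) {α β ζ : Ordinal.{0}} (hα : α ∈ Nd lam X α ζ)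
    (h : ∀ η < ζ, η ∈ br lam X α ↔ η ∈ br lam X β) :
    ∀ η ≤ ζ, Nd lam X α η = Nd lam X β η := by
  intro η
  induction η using WellFoundedLT.induction with
  | ind η ih =>
    intro hη
    ext b
    rw [mem_Nd, mem_Nd]
    refine and_congr_right fun _ => and_congr_right fun _ => forall_congr' fun η' =>
      forall_congr' fun hη' => ?_
    have h1 : Nd lam X α η' = Nd lam X β η' := ih η' hη' (hη'.le.trans hη)
    obtain ⟨B0, hB0, -⟩ := (mem_Nd.1 hα).2.2 η' (hη'.trans_le hη)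
    have hB0' : LeastOD lam (Spl lam (Nd lam X β η')) B0 := by rw [← h1]; exact hB0
    have h2 : α ∈ st B0 ↔ β ∈ st B0 := by
      rw [← mem_br_iff hL hB0, ← mem_br_iff hL hB0']
      exact h η' (hη'.trans_le hη)
    rw [← h1]
    constructor
    · rintro ⟨B, hB, h3⟩
      obtain rfl := hL.1 _ _ _ _ hB hB0
      exact ⟨B, hB, h2.symm.trans h3⟩
    · rintro ⟨B, hB, h3⟩
      obtain rfl := hL.1 _ _ _ _ hB hB0
      exact ⟨B, hB, h2.trans h3⟩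

theorem ne (hL : StLE) : StNE := by
  intro lam X
  refine ⟨fun α ζ ζ' h => Nd_anti h, fun α ζ a => mem_Nd_succ, fun α ζ h1 h2 h3 =>
    self_mem_Nd h1 h2 h3, fun α β ζ h1 h2 => Nd_eq_of_br hL h1 h2⟩

end Pool.Agent.Helper73.HM
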