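import Pool.Agent.Helper73.HM.St

/-! # HM module RE: definable recursion -/

namespace Pool.Agent.Helper73.HM

open Ordinal Cardinal ZFSet Order Pool.Agent.Helper73.HODC Pool.Agent.Helper73.HE

theorem re : StRE := by
  intro lam H Step hstep hbd hH
  have key : ∀ v ζ a, a ∈ H v ζ ↔ ∃ W : ZFSet.{0}, (∀ η, η < ζ → ∀ b, b ∈ sec W η ↔
      Step η W b v) ∧ Step ζ W a v := by
    intro v ζ a
    constructor
    · intro ha
      let W : ZFSet.{0} := ZFSet.sep (fun z => ∃ ξ a : Ordinal.{0},
        z = ZFSet.pair ξ.toZFSet a.toZFSet ∧ a ∈ H v ξ) (ZFSet.prod ζ.toZFSet lam.toZFSet)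
      have hW : ∀ ξ < ζ, sec W ξ = H v ξ := by
        intro ξ hξ
        ext a
        constructor
        · rintro ⟨u, w, h1, rfl, rfl⟩
          obtain ⟨-, ξ', a', h2, h3⟩ := ZFSet.mem_sep.1 h1
          obtain ⟨rfl, rfl⟩ := ZFSet.pair_injective h2
          rw [rank_toZFSet, rank_toZFSet]
          exact h3
        · intro ha
          have h1 := hbd v ξ a ha
          refine ⟨ξ.toZFSet, a.toZFSet, ?_, rank_toZFSet ξ, rank_toZFSet a⟩
          refine ZFSet.mem_sep.2 ⟨?_, ξ, a, rfl, ha⟩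
          rw [ZFSet.pair_mem_prod]
          exact ⟨mem_toZFSet_iff.2 ⟨ξ, hξ, rfl⟩, mem_toZFSet_iff.2 ⟨a, h1, rfl⟩⟩
      refine ⟨W, fun η hη b => ?_, (hH v ζ W hW a).2 ha⟩
      rw [hW η hη]
      exact (hH v η W (fun η' hη' => hW η' (hη'.trans hη)) b).symm
    · rintro ⟨W, h1, h2⟩
      have h3 : ∀ η, η < ζ → sec W η = H v η := by
        intro η
        induction η using WellFoundedLT.induction with
        | ind η ih =>
          intro hη
          ext b
          rw [h1 η hη b]
          exact hH v η W (fun η' hη' => ih η' hη' (hη'.trans hη)) b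
      exact (hH v ζ W h3 a).1 h2
  refine DP.congr ?_ fun v => key (fun n => v (n + 2)) (v 1).rank (v 0).rank
  refine DP.ex (Q := fun W v => (∀ η, η < (v 1).rank → ∀ b, b ∈ sec W η ↔
      Step η W b (fun n => v (n + 2))) ∧ Step (v 1).rank W (v 0).rank (fun n => v (n + 2))) ?_
  refine DP.and ?_ ?_
  · refine DP.allO (Q := fun η v => η < (v 2).rank → ∀ b, b ∈ sec (v 0) η ↔
      Step η (v 0) b (fun n => v (n + 3))) ?_
    refine (DP.rank_lt 0 3).imp ?_
    refine DP.allO (Q := fun b v => b ∈ sec (v 1) (v 0).rank ↔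
      Step (v 0).rank (v 1) b (fun n => v (n + 4))) ?_
    refine (HE.DP.sec 0 2 1).iff ?_
    exact hstep.rename (fun n => if n = 0 then 1 else if n = 1 then 2 else if n = 2 then 0
      else n + 2)
  · exact hstep.rename (fun n => if n = 0 then 2 else if n = 1 then 0 else if n = 2 then 1
      else n)

end Pool.Agent.Helper73.HM
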