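import Pool.Agent.Helper73.HM.Fin
import Pool.Agent.Helper73.HM.RE
import Pool.Agent.Helper73.HM.NE
import Pool.Agent.Helper73.HM.ND
import Pool.Agent.Helper73.HM.NS
import Pool.Agent.Helper32.HM.RA
import Pool.Agent.Helper38.HM.RC
import Pool.Agent.Helper11.HM.RS
import Pool.Agent.Helper66.HM.DJ
import Pool.Agent.Helper96.HM.CV
import Pool.Agent.Helper96.HM.HY
import Pool.Agent.Helper77.HM.TC
import Pool.Agent.Helper12.HM.TS
import Pool.Agent.Helper30.HM.OZ
import Pool.Agent.Helper14.HM.LE
import Pool.Agent.Helper62.HM.LS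
import Pool.Agent.Helper14.HM.CF
import Pool.Agent.Helper22.HM.NA
import Pool.Agent.Helper29.HM.NM
import Pool.Agent.Helper31.HM.ML
import Pool.Agent.Helper34.HM.CH
import Pool.Agent.Helper29.HM.PW

/-! # HM: the theorem, all modules assembled -/

namespace Pool.Agent.Helper73.HM

theorem main_local : StLocal := by
  have hRefl : StRefl := refl_of Helper32.HM.ra Helper38.HM.rc Helper11.HM.RS.rs
  have hCV : StCV := Helper96.HM.cv hRefl Helper66.HM.dj
  have hTC : StTC := Helper77.HM.TC.tc
  have hTS : StTS := Helper12.HM.ts hTC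
  have hTD : StTD := td_of hTC hTS
  have hOZ : StOZ := Helper30.HM.oz hTD
  have hHP : StHP := hp_of hTD hOZ
  have hLE : StLE := Helper14.HM.le hTC hOZ
  have hLS : StLS := Helper62.HM.LS.ls hTD
  have hLD : StLD := ld_of hHP hLS
  have hNE : StNE := ne hLE
  have hND : StND := nd re hLD
  have hNS : StNS := ns hLE hNE hND
  have hNA : StNA := Helper22.HM.NA.na hLE hNE hND hNS
  have hUD : StUD := ud_of hHP
  have hNM : StNM := Helper29.HM.NM.nm hHP hUD
  have hML : StML := Helper31.HM.ML.ml hHP hUD gr'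
  have hCH : StCH := Helper34.HM.ch hRefl hLE hLD re hHP Helper14.HM.cf
  have hPW : StPW := Helper29.HM.PW.pw hLE hLD re hHP
  exact local_of hCV hNA hCH hNM hML hUD hPW

theorem main : StMain := main_of main_local Helper96.HM.hy

end Pool.Agent.Helper73.HM
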