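import Pool.Agent.Helper73.HE.Tree
import Pool.Agent.Helper73.HE.Abs

/-!
# A strongly compact cardinal: the HOD Hypothesis or Mitchell order in HOD.  Definitions
-/

namespace Pool.Agent.Helper73.HM

open Ordinal Cardinal ZFSet Order Pool.Agent.Helper73.HODC

/-! ### The notions of the theorem -/

/-- `κ` is strongly compact: regular, uncountable, and every (proper) `κ`-complete filter on a set
extends to a `κ`-complete ultrafilter. -/
structure StronglyCompact (κ : Cardinal.{0}) : Prop where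
  reg : κ.IsRegular
  unc : ℵ₀ < κ
  ext : ∀ (I : Type) (F : Filter I), F.NeBot → CardinalInterFilter F κ →
    ∃ U : Ultrafilter I, CardinalInterFilter (U : Filter I) κ ∧ (U : Filter I) ≤ F

/-- The HOD Hypothesis: the regular cardinals which are not omega-strongly measurable in HOD are
unbounded in the ordinals. -/
def HODHypothesis : Prop :=
  ∀ θ : Ordinal.{0}, ∃ c : Cardinal.{0}, c.IsRegular ∧ θ < c.ord ∧ ¬ OmegaStronglyMeasurable c.ord

/-- `U` is in HOD and it is, in HOD, a normal ultrafilter on `lam` which contains the final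
segments of `lam` (hence nonprincipal and `lam`-complete in HOD) -/
structure HODNormal (lam : Ordinal.{0}) (U : ZFSet.{0}) : Prop where
  hod : HOD U
  sub : ∀ X ∈ U, X ∈ hodPow lam
  up : ∀ X ∈ U, ∀ Y ∈ hodPow lam, X ⊆ Y → Y ∈ U
  inter : ∀ X ∈ U, ∀ Y ∈ U, X ∩ Y ∈ U
  ultra : ∀ X ∈ hodPow lam, X ∈ U ↔ lam.toZFSet \ X ∉ U
  tail : ∀ β < lam, ordSet lam {a | β ≤ a} ∈ U
  normal : ∀ f : Ordinal.{0} → Ordinal.{0}, HOD (graph lam f) → ∀ X ∈ U,
    (∀ a, a.toZFSet ∈ X → a ≠ 0 → f a < a) → ∃ η < lam, ordSet lam {a | f a = η} ∈ U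

/-- the function `{(a, g a) : a < ρ}` as a set of ordered pairs -/
noncomputable def gr (ρ : Ordinal.{0}) (g : Ordinal.{0} → ZFSet.{0}) : ZFSet.{0} :=
  ZFSet.range (fun a : Set.Iio ρ => ZFSet.pair a.1.toZFSet (g a.1))

/-- Mitchell order in HOD, for `U` and `U'` as in `HODNormal`: for some function `g` in HOD with
domain `lam` and all `X ⊆ lam` in HOD, `X ∈ U` iff `X ∩ a ∈ g a` for `U'`-almost all `a`. (Then `g`
represents in the ultrapower of HOD by `U'` a set whose intersection with the power set of `lam`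
is `U`.) -/
def MLt (lam : Ordinal.{0}) (U U' : ZFSet.{0}) : Prop :=
  ∃ g : Ordinal.{0} → ZFSet.{0}, HOD (gr lam g) ∧
    ∀ X ∈ hodPow lam, X ∈ U ↔ ordSet lam {a | X ∩ a.toZFSet ∈ g a} ∈ U'

/-- HOD contains a sequence of length `κ` of normal ultrafilters on `lam` (in the sense of HOD)
which is increasing in the Mitchell order of HOD (so `lam` has Mitchell order at least `κ`
in HOD). -/
def MitchellChain (κ lam : Ordinal.{0}) : Prop :=
  ∃ U : Ordinal.{0} → ZFSet.{0}, HOD (gr κ U) ∧ (∀ ξ < κ, HODNormal lam (U ξ)) ∧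
    ∀ ξ ζ, ξ < ζ → ζ < κ → MLt lam (U ξ) (U ζ)

/-! ### Auxiliary definitions: codes of formulas, definability without parameters -/

/-- the natural number `n` as a set -/
noncomputable def nz (n : ℕ) : ZFSet.{0} := (n : Ordinal.{0}).toZFSet

/-- the code of a formula -/
noncomputable def code : Fm → ZFSet.{0}
  | .mem i j => ZFSet.pair (nz 0) (ZFSet.pair (nz i) (nz j))
  | .eq i j => ZFSet.pair (nz 1) (ZFSet.pair (nz i) (nz j))
  | .neg φ => ZFSet.pair (nz 2) (code φ)
  | .and φ ψ => ZFSet.pair (nz 3) (ZFSet.pair (code φ) (code ψ))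
  | .all φ => ZFSet.pair (nz 4) (code φ)

/-- `x` is defined in `V_θ` without parameters by the formula with code `c` -/
def Dz (θ : Ordinal.{0}) (c x : ZFSet.{0}) : Prop :=
  ∃ φ, code φ = c ∧ x ∈ V_ θ ∧ ∀ y ∈ V_ θ, Sat {z | z ∈ V_ θ} φ (fun _ => y) ↔ y = x

/-- the least `θ` such that `x` is definable in `V_θ` -/
noncomputable def key1 (x : ZFSet.{0}) : Ordinal.{0} := sInf {θ | ∃ c, Dz θ c x}

/-- the least rank of the code of a formula which defines `x` in `V_θ`, `θ = key1 x` -/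
noncomputable def key2 (x : ZFSet.{0}) : Ordinal.{0} := sInf {n | ∃ c, c.rank = n ∧ Dz (key1 x) c x}

/-- lexicographic order of sets of ordinals -/
def LexLt (x y : ZFSet.{0}) : Prop :=
  ∃ a, a ∈ st y ∧ a ∉ st x ∧ ∀ b, b < a → (b ∈ st x ↔ b ∈ st y)

/-- the canonical order of ordinal definable sets of ordinals -/
def Less (x y : ZFSet.{0}) : Prop :=
  key1 x < key1 y ∨ (key1 x = key1 y ∧ (key2 x < key2 y ∨ (key2 x = key2 y ∧ LexLt x y)))

/-- `x` is the least ordinal definable subset of `lam` with the property `P` -/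
def LeastOD (lam : Ordinal.{0}) (P : ZFSet.{0} → Prop) (x : ZFSet.{0}) : Prop :=
  (OD x ∧ x ⊆ lam.toZFSet ∧ P x) ∧ ∀ y, OD y → y ⊆ lam.toZFSet → P y → ¬ Less y x

/-! ### Auxiliary definitions: splitting, atoms -/

/-- `B` splits `A` into two stationary subsets of `lam` -/
def Spl (lam : Ordinal.{0}) (A : Set Ordinal.{0}) (B : ZFSet.{0}) : Prop :=
  Stat {a | a ∈ A ∧ a ∈ st B} lam ∧ Stat {a | a ∈ A ∧ a ∉ st B} lam

/-- `A` is stationary in `lam` and not split by any ordinal definable set -/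
def Atom (lam : Ordinal.{0}) (A : Set Ordinal.{0}) : Prop :=
  Stat A lam ∧ ∀ B, OD B → B ⊆ lam.toZFSet → ¬ Spl lam A B

/-- the node of level `ζ` of the splitting tree of `X` containing `α` -/
def Nd (lam : Ordinal.{0}) (X : Set Ordinal.{0}) (α ζ : Ordinal.{0}) : Set Ordinal.{0} :=
  {a | a ∈ X ∧ a < lam ∧ ∀ η : Set.Iio ζ, ∃ B, LeastOD lam (Spl lam (Nd lam X α η.1)) B ∧
    (α ∈ st B ↔ a ∈ st B)}
termination_by ζ
decreasing_by exact η.2

/-- the branch of `α` -/
def br (lam : Ordinal.{0}) (X : Set Ordinal.{0}) (α : Ordinal.{0}) : Set Ordinal.{0} :=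
  {η | ∃ B, LeastOD lam (Spl lam (Nd lam X α η)) B ∧ α ∈ st B}

/-- the sets in HOD which contain almost all elements of `A` -/
noncomputable def UA (lam : Ordinal.{0}) (A : Set Ordinal.{0}) : ZFSet.{0} :=
  ZFSet.sep (fun X => ¬ Stat {a | a ∈ A ∧ a ∉ st X} lam) (hodPow lam)

/-- a relation of three arguments, as a predicate: `a ∈ A ζ` is definable from ordinals -/
def DPr (A : Ordinal.{0} → Set Ordinal.{0}) : Prop := DP (fun v => (v 0).rank ∈ A (v 1).rank)

/-- `A` is definable from ordinals -/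
def DPs (A : Set Ordinal.{0}) : Prop := DP (fun v => (v 0).rank ∈ A)

end Pool.Agent.Helper73.HM
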