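import Pool.Agent.Helper73.HM.St

/-! # HM: reflection assembled, definability of the notions -/

namespace Pool.Agent.Helper73.HM

open Ordinal Cardinal ZFSet Order Pool.Agent.Helper73.HODC Pool.Agent.Helper73.HE

/-! ### reflection -/

theorem eventually_all {I : Type} {F : Filter I} {κ : Cardinal.{0}} (hF : CardinalInterFilter F κ)
    {ι : Type} (hι : Cardinal.mk ι < κ) {P : ι → I → Prop} (h : ∀ i, ∀ᶠ x in F, P i x) :
    ∀ᶠ x in F, ∀ i, P i x := by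
  have h1 : ⋂₀ (Set.range fun i => {x | P i x}) ∈ F :=
    hF.cardinal_sInter_mem _ (lt_of_le_of_lt Cardinal.mk_range_le hι) (by
      rintro s ⟨i, rfl⟩
      exact h i)
  refine Filter.mem_of_superset h1 fun x hx i => ?_
  exact hx _ ⟨i, rfl⟩

theorem refl_of (h1 : StRA) (h2 : StRC) (h3 : StRS) : StRefl := by
  intro κ c hκ hc hkc ι hι A hA hA'
  obtain ⟨I, U, g, hU, hg1, hg2, hg3⟩ := h1 κ c hκ hc hkc
  obtain ⟨h4, h5⟩ := h2 κ c I U g hκ.unc hc hkc hU hg1 hg2 hg3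
  have h6 : ∀ᶠ x in (U : Filter I), ∀ i, Stat (A i) (g x) :=
    eventually_all hU hι fun i => h3 κ c I U g hκ.unc hc hkc hU hg1 hg2 hg3 (A i) (hA i) (hA' i)
  intro C hC
  obtain ⟨x, ⟨⟨⟨h7, h8⟩, h9⟩, h10⟩, h11⟩ := (((hg3.and h4).and (h5 C hC)).and h6).exists
  exact ⟨g x, ⟨h9, h8, h11⟩, h10, h7⟩

/-! ### definability -/

theorem Dz.unique (hc : ∀ φ ψ : Fm, code φ = code ψ → φ = ψ) {θ : Ordinal.{0}}
    {c x y : ZFSet.{0}} (h : Dz θ c x) (h' : Dz θ c y) : x = y := by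
  obtain ⟨φ, h1, h2, h3⟩ := h
  obtain ⟨ψ, h1', h2', h3'⟩ := h'
  obtain rfl := hc _ _ (h1.trans h1'.symm)
  exact (h3' x h2).1 ((h3 x h2).2 rfl)

theorem td_of (h1 : StTC) (h2 : StTS) : StTD := by
  intro i j k
  obtain ⟨hinj, -, -, hcode⟩ := h1
  have h3 : Dfn (fun v => ∀ y : ZFSet.{0}, y.rank < (v i).rank →
      ((y.rank < (v i).rank ∧ ∃ φ, code φ = v j ∧ Sat {z | z ∈ V_ (v i).rank} φ (fun _ => y)) ↔
        y = v k)) := by
    refine Dfn.all (Q := fun y v => y.rank < (v i).rank →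
      ((y.rank < (v i).rank ∧ ∃ φ, code φ = v j ∧ Sat {z | z ∈ V_ (v i).rank} φ (fun _ => y)) ↔
        y = v k)) ?_
    exact (dfn_rank_lt 0 (i + 1)).imp ((h2 (j + 1) (i + 1) 0).iff (dfn_eq 0 (k + 1)))
  refine (((hcode j).and (dfn_rank_lt k i)).and h3).congr fun v => ?_
  constructor
  · rintro ⟨⟨⟨φ, hφ⟩, hk⟩, h4⟩
    refine ⟨φ, hφ, mem_vonNeumann.2 hk, fun y hy => ?_⟩
    rw [mem_vonNeumann] at hy
    rw [← h4 y hy]
    constructor
    · intro h5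
      exact ⟨hy, φ, hφ, h5⟩
    · rintro ⟨-, ψ, hψ, h5⟩
      obtain rfl := hinj _ _ (hψ.trans hφ.symm)
      exact h5
  · rintro ⟨φ, hφ, hk, h4⟩
    refine ⟨⟨⟨φ, hφ⟩, mem_vonNeumann.1 hk⟩, fun y hy => ?_⟩
    rw [← h4 y (mem_vonNeumann.2 hy)]
    constructor
    · rintro ⟨-, ψ, hψ, h5⟩
      obtain rfl := hinj _ _ (hψ.trans hφ.symm)
      exact h5
    · intro h5
      exact ⟨hy, φ, hφ, h5⟩

theorem dfn_sub_ord (i j : ℕ) : Dfn (fun v => v i ⊆ (v j).rank.toZFSet) := by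
  refine (Dfn.all (Q := fun z v => z ∈ v i → (z = z.rank.toZFSet ∧ z.rank < (v j).rank))
    ((dfn_mem 0 (i + 1)).imp ((dfn_isOrd 0).and (dfn_rank_lt 0 (j + 1))))).congr fun v => ?_
  constructor
  · intro h z hz
    obtain ⟨h1, h2⟩ := h z hz
    exact mem_toZFSet_iff.2 ⟨z.rank, h2, h1.symm⟩
  · intro h z hz
    obtain ⟨a, ha, rfl⟩ := mem_toZFSet_iff.1 (h hz)
    rw [rank_toZFSet]
    exact ⟨rfl, ha⟩

theorem hp_of (h1 : StTD) (h2 : StOZ) : StHP := by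
  have h3 : ∀ i : ℕ, Dfn (fun v => OD (v i)) := by
    intro i
    refine (Dfn.exO (Q := fun θ v => ∃ c, Dz θ c (v i)) ?_).congr fun v => (h2 _).symm
    exact Dfn.ex (Q := fun c v => Dz (v 0).rank c (v (i + 1))) (h1 1 0 (i + 2))
  refine ⟨h3, fun i j => ?_⟩
  exact ((dfn_sub_ord i j).and (h3 i)).congr fun v => mem_hodPow.symm

theorem ld_of (h1 : StHP) (h2 : StLS) : StLD := by
  intro lam P hP i
  have hsub : ∀ j, DP (fun v => v j ⊆ lam.toZFSet) := by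
    intro j
    refine (DP.ex (Q := fun x v => x = lam.toZFSet ∧ v j ⊆ x.rank.toZFSet)
      ((DP.eq_ord 0 lam).and (DP.of (dfn_sub_ord (j + 1) 0)))).congr fun v => ?_
    constructor
    · intro h
      exact ⟨_, rfl, by rwa [rank_toZFSet]⟩
    · rintro ⟨x, rfl, h⟩
      rwa [rank_toZFSet] at h
  refine ((DP.of (h1.1 i)).and ((hsub i).and ?_)).and ?_
  · exact hP.rename (fun n => if n = 0 then i else n - 1)
  · refine DP.all (Q := fun y v => OD y → y ⊆ lam.toZFSet → P y v → ¬ Less y (v i)) ?_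
    exact (DP.of (h1.1 0)).imp ((hsub 0).imp (hP.imp (DP.of (h2 0 (i + 1))).not))

theorem ud_of (h1 : StHP) : StUD := by
  intro A hA
  refine (DP.all (Q := fun z v => z ∈ v 0 ↔ (z ∈ hodPow (v 1).rank ∧
    ¬ Stat {a | a ∈ A (v 2).rank ∧ a ∉ st z} (v 1).rank)) ?_).congr fun v => ?_
  · refine (DP.mem 0 1).iff ((DP.of (h1.2 0 2)).and (DP.not ?_))
    refine DP.statV (Q := fun a v => a ∈ A (v 3).rank ∧ a ∉ st (v 0)) ?_ 2
    exact (DPr.at hA 0 4).and (DP.st 0 1).not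
  · rw [ZFSet.ext_iff]
    refine forall_congr' fun z => iff_congr Iff.rfl ?_
    rw [UA, ZFSet.mem_sep]

theorem mem_gr {ρ : Ordinal.{0}} {g : Ordinal.{0} → ZFSet.{0}} {z : ZFSet.{0}} :
    z ∈ gr ρ g ↔ ∃ a < ρ, z = ZFSet.pair a.toZFSet (g a) := by
  rw [gr, ZFSet.mem_range]
  constructor
  · rintro ⟨⟨a, ha⟩, h⟩
    exact ⟨a, ha, h.symm⟩
  · rintro ⟨a, ha, h⟩
    exact ⟨⟨a, ha⟩, h.symm⟩

theorem gr' : StGR := by
  intro ρ g hg hH
  refine HOD.intro _ (DP.od ?_) ?_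
  · refine (DP.all (Q := fun z v => z ∈ v 0 ↔ ∃ u : ZFSet.{0}, ∃ w : ZFSet.{0},
      (u = u.rank.toZFSet ∧ u.rank < ρ) ∧ z = ZFSet.pair u w ∧ w = g u.rank) ?_).congr ?_
    · refine (DP.mem 0 1).iff ?_
      refine DP.ex (Q := fun u v => ∃ w : ZFSet.{0},
        (u = u.rank.toZFSet ∧ u.rank < ρ) ∧ v 0 = ZFSet.pair u w ∧ w = g u.rank) ?_
      refine DP.ex (Q := fun w v => (v 0 = (v 0).rank.toZFSet ∧ (v 0).rank < ρ) ∧
        v 1 = ZFSet.pair (v 0) w ∧ w = g (v 0).rank) ?_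
      exact ((DP.isOrd 1).and (DP.rank_lt_ord 1 ρ)).and ((DP.pair 2 1 0).and hg)
    · intro v
      rw [ZFSet.ext_iff]
      refine forall_congr' fun z => iff_congr Iff.rfl ?_
      rw [mem_gr]
      constructor
      · rintro ⟨a, ha, rfl⟩
        exact ⟨_, _, ⟨by rw [rank_toZFSet], by rwa [rank_toZFSet]⟩, rfl, by rw [rank_toZFSet]⟩
      · rintro ⟨u, w, ⟨hu, hu'⟩, hz, rfl⟩
        exact ⟨u.rank, hu', by rw [← hu]; exact hz⟩
  · intro z hz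
    obtain ⟨a, ha, rfl⟩ := mem_gr.1 hz
    exact HOD_pair (HOD_toZFSet _) (hH a ha) (DP.eq_ord 0 _) (dp_eq_HOD (hH a ha) 0)

end Pool.Agent.Helper73.HM
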